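import Mathlib

/-!
SparseStack matrices and oblivious subspace injections.
-/

open scoped BigOperators

namespace Pool.Agent.TH967.OSI

/-- the sign attached to a Boolean -/
noncomputable def sgn (s : Bool) : ℝ := if s then 1 else -1

/-- A sample of the randomness of a SparseStack: for each row `i` and each block `j` a sign
(a Boolean) and a position in the block; all samples are equally likely. -/
abbrev Sample (n ζ b : ℕ) := Fin n → Fin ζ → Bool × Fin b

/-- The SparseStack matrix `Ω`, an `n × (ζ b)` matrix; the columns are indexed by pairs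
(block, position in the block). -/
noncomputable def stack {n ζ b : ℕ} (ω : Sample n ζ b) : Matrix (Fin n) (Fin ζ × Fin b) ℝ :=
  fun i q => if (ω i q.1).2 = q.2 then sgn (ω i q.1).1 / Real.sqrt ζ else 0

/-- The sketch `Ωᵀ x`. -/
noncomputable def sketch {n ζ b : ℕ} (ω : Sample n ζ b) (x : EuclideanSpace ℝ (Fin n)) :
    EuclideanSpace ℝ (Fin ζ × Fin b) :=
  WithLp.toLp 2 ((stack ω).transpose.mulVec (fun i => x i))

/-- Probability under the uniform distribution on samples. -/
noncomputable def prob {n ζ b : ℕ} (S : Set (Sample n ζ b)) : ℝ :=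
  (Nat.card S : ℝ) / (Nat.card (Sample n ζ b) : ℝ)

/-- Expectation under the uniform distribution on samples. -/
noncomputable def expect {n ζ b : ℕ} (f : Sample n ζ b → ℝ) : ℝ :=
  (∑ ω, f ω) / (Nat.card (Sample n ζ b) : ℝ)

/-- The random SparseStack with `n` rows, `ζ` blocks of width `b` is an oblivious subspace
injection for `r`-dimensional subspaces, with parameter `α` and failure probability `δ`. -/
def IsOSI (n ζ b r : ℕ) (α δ : ℝ) : Prop :=
  (∀ x : EuclideanSpace ℝ (Fin n),
    expect (fun ω : Sample n ζ b => ‖sketch ω x‖ ^ 2) = ‖x‖ ^ 2) ∧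
  ∀ V : Submodule ℝ (EuclideanSpace ℝ (Fin n)), Module.finrank ℝ V = r →
    1 - δ ≤ prob {ω : Sample n ζ b | ∀ x ∈ V, α * ‖x‖ ^ 2 ≤ ‖sketch ω x‖ ^ 2}

end Pool.Agent.TH967.OSI
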