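import Mathlib

open scoped BigOperators

namespace Pool.Agent.TH967.OSI

/-- average over a finite type -/
noncomputable def avg {T : Type*} [Fintype T] (f : T → ℝ) : ℝ := (∑ x, f x) / (Fintype.card T : ℝ)

section basic
variable {T S : Type*} [Fintype T] [Fintype S]

theorem avg_add (f g : T → ℝ) : avg (fun x => f x + g x) = avg f + avg g := by
  unfold avg; rw [Finset.sum_add_distrib, add_div]

theorem avg_sub (f g : T → ℝ) : avg (fun x => f x - g x) = avg f - avg g := by
  unfold avg; rw [Finset.sum_sub_distrib, sub_div]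

theorem avg_mul_left (c : ℝ) (f : T → ℝ) : avg (fun x => c * f x) = c * avg f := by
  unfold avg; rw [← Finset.mul_sum, mul_div_assoc]

theorem avg_mul_right (c : ℝ) (f : T → ℝ) : avg (fun x => f x * c) = avg f * c := by
  unfold avg; rw [← Finset.sum_mul, div_mul_eq_mul_div]

theorem avg_sum {ι : Type*} (s : Finset ι) (f : ι → T → ℝ) :
    avg (fun x => ∑ i ∈ s, f i x) = ∑ i ∈ s, avg (f i) := by
  unfold avg; rw [Finset.sum_comm, Finset.sum_div]

theorem avg_const [Nonempty T] (c : ℝ) : avg (fun _ : T => c) = c := by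
  unfold avg
  rw [Finset.sum_const, Finset.card_univ, nsmul_eq_mul]
  have : (Fintype.card T : ℝ) ≠ 0 := by exact_mod_cast Fintype.card_ne_zero
  field_simp

theorem avg_mono {f g : T → ℝ} (h : ∀ x, f x ≤ g x) : avg f ≤ avg g := by
  unfold avg
  exact div_le_div_of_nonneg_right (Finset.sum_le_sum fun x _ => h x) (Nat.cast_nonneg _)

theorem avg_nonneg {f : T → ℝ} (h : ∀ x, 0 ≤ f x) : 0 ≤ avg f := by
  unfold avg
  exact div_nonneg (Finset.sum_nonneg fun x _ => h x) (Nat.cast_nonneg _)

theorem avg_equiv (e : T ≃ S) (f : S → ℝ) : avg (fun x => f (e x)) = avg f := by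
  unfold avg
  rw [Fintype.card_congr e, Equiv.sum_comp e f]

theorem avg_prod (f : T × S → ℝ) : avg f = avg (fun a => avg (fun b => f (a, b))) := by
  unfold avg
  rw [Fintype.sum_prod_type, Fintype.card_prod, ← Finset.sum_div, div_div]
  push_cast
  rw [mul_comm (Fintype.card S : ℝ)]

theorem avg_fst {U : Type*} [Fintype U] [Nonempty S] (e : U ≃ T × S) (f : T → ℝ) :
    avg (fun x => f (e x).1) = avg f := by
  rw [avg_equiv e (fun p : T × S => f p.1), avg_prod]
  congr 1
  funext a
  exact avg_const (T := S) (f a)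

end basic

theorem avg_comp_injective {J K X : Type*} [Fintype J] [Fintype K] [DecidableEq K] [DecidableEq J]
    [Fintype X] [Nonempty X] (φ : J → K) (hφ : Function.Injective φ) (f : (J → X) → ℝ) :
    avg (fun ω : K → X => f (fun j => ω (φ j))) = avg f := by
  classical
  set e1 : (K → X) ≃ ({k // k ∈ Set.range φ} → X) × ({k // ¬ k ∈ Set.range φ} → X) :=
    Equiv.piEquivPiSubtypeProd (fun k => k ∈ Set.range φ) (fun _ => X) with he1
  set e2 : J ≃ {k // k ∈ Set.range φ} := Equiv.ofInjective φ hφ with he2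
  have h1 := avg_fst e1 (fun g : {k // k ∈ Set.range φ} → X => f (fun j => g (e2 j)))
  have h2 := avg_equiv (Equiv.arrowCongr e2.symm (Equiv.refl X)) f
  rw [← h2]
  have h3 : (fun ω : K → X => f (fun j => ω (φ j)))
      = (fun x => f (fun j => (e1 x).1 (e2 j))) := by
    funext ω
    rfl
  rw [h3, h1]
  rfl

/-- average of a product of functions of independent coordinates -/
theorem avg_prod_pi {K X : Type*} [Fintype K] [DecidableEq K] [Fintype X]
    (f : K → X → ℝ) : avg (fun ω : K → X => ∏ k, f k (ω k)) = ∏ k, avg (f k) := by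
  unfold avg
  rw [Finset.prod_div_distrib, Finset.prod_univ_sum, Fintype.piFinset_univ, Fintype.card_fun,
    Finset.prod_const, Finset.card_univ]
  push_cast
  rfl

end Pool.Agent.TH967.OSI
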