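import Mathlib
import Pool.Agent.TH967.OSI.Avg

open scoped BigOperators

namespace Pool.Agent.TH967.OSI

/-- indicator that `s` is in the range of `u` -/
noncomputable def hit {N b : ℕ} (u : Fin N → Fin b) (s : Fin b) : ℝ :=
  by classical exact if ∃ i, u i = s then 1 else 0

theorem one_sub_hit {N b : ℕ} (u : Fin N → Fin b) (s : Fin b) :
    1 - hit u s = ∏ i, (if u i = s then (0:ℝ) else 1) := by
  classical
  unfold hit
  by_cases h : ∃ i, u i = s
  · rw [if_pos h]
    obtain ⟨i, hi⟩ := h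
    rw [sub_self, eq_comm]
    exact Finset.prod_eq_zero (Finset.mem_univ i) (by rw [if_pos hi])
  · rw [if_neg h, sub_zero, eq_comm]
    push Not at h
    exact Finset.prod_eq_one fun i _ => by rw [if_neg (h i)]

/-- probability that a given position is hit -/
noncomputable def qq (N b : ℕ) : ℝ := 1 - (1 - 1 / (b:ℝ)) ^ N

theorem avg_not_eq {b : ℕ} (hb : 0 < b) (s : Fin b) :
    avg (fun x : Fin b => if x = s then (0:ℝ) else 1) = 1 - 1 / (b:ℝ) := by
  have hb' : (b:ℝ) ≠ 0 := by positivity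
  have : (fun x : Fin b => if x = s then (0:ℝ) else 1)
      = fun x => 1 - (if x = s then (1:ℝ) else 0) := by
    funext x; split_ifs <;> norm_num
  unfold avg
  rw [this, Finset.sum_sub_distrib, Finset.sum_ite_eq' Finset.univ s]
  simp
  field_simp

theorem avg_not_eq2 {b : ℕ} (hb : 0 < b) (s t : Fin b) (hst : s ≠ t) :
    avg (fun x : Fin b => (if x = s then (0:ℝ) else 1) * (if x = t then (0:ℝ) else 1))
      = 1 - 2 / (b:ℝ) := by
  have hb' : (b:ℝ) ≠ 0 := by positivity
  have : (fun x : Fin b => (if x = s then (0:ℝ) else 1) * (if x = t then (0:ℝ) else 1))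
      = fun x => 1 - (if x = s then (1:ℝ) else 0) - (if x = t then (1:ℝ) else 0) := by
    funext x
    by_cases h1 : x = s
    · by_cases h2 : x = t
      · exact absurd (h1.symm.trans h2) hst
      · simp [h1, hst]
    · by_cases h2 : x = t
      · simp [h2, Ne.symm hst]
      · simp [h1, h2]
  unfold avg
  rw [this, Finset.sum_sub_distrib, Finset.sum_sub_distrib, Finset.sum_ite_eq' Finset.univ s,
    Finset.sum_ite_eq' Finset.univ t]
  simp
  field_simp
  ring

theorem avg_hit {N b : ℕ} (hb : 0 < b) (s : Fin b) :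
    avg (fun u : Fin N → Fin b => hit u s) = qq N b := by
  have : Nonempty (Fin b) := ⟨⟨0, hb⟩⟩
  have h1 : (fun u : Fin N → Fin b => hit u s)
      = fun u => 1 - ∏ i, (fun (_ : Fin N) (x : Fin b) => if x = s then (0:ℝ) else 1) i (u i) := by
    funext u
    have := one_sub_hit u s
    simp only
    linarith
  rw [h1, avg_sub, avg_const,
    avg_prod_pi (fun (_ : Fin N) (x : Fin b) => if x = s then (0:ℝ) else 1),
    Finset.prod_const, avg_not_eq hb, Finset.card_univ, Fintype.card_fin]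
  rfl

theorem avg_hit2 {N b : ℕ} (hb : 0 < b) (s t : Fin b) (hst : s ≠ t) :
    avg (fun u : Fin N → Fin b => hit u s * hit u t) ≤ qq N b ^ 2 := by
  have : Nonempty (Fin b) := ⟨⟨0, hb⟩⟩
  have hb2 : 2 ≤ b := by
    by_contra h
    apply hst
    apply Fin.ext
    have := s.2
    have := t.2
    omega
  have hb' : (0:ℝ) < b := by exact_mod_cast hb
  have h1 : (fun u : Fin N → Fin b => hit u s * hit u t)
      = fun u => hit u s + hit u t - 1 + ∏ i, (fun (_ : Fin N) (x : Fin b) =>
        (if x = s then (0:ℝ) else 1) * (if x = t then (0:ℝ) else 1)) i (u i) := by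
    funext u
    have h1 := one_sub_hit u s
    have h2 := one_sub_hit u t
    simp only [Finset.prod_mul_distrib]
    rw [← h1, ← h2]
    ring
  rw [h1, avg_add, avg_sub, avg_add, avg_const,
    avg_prod_pi (fun (_ : Fin N) (x : Fin b) =>
        (if x = s then (0:ℝ) else 1) * (if x = t then (0:ℝ) else 1)), Finset.prod_const,
    avg_not_eq2 hb s t hst, avg_hit hb, avg_hit hb, Finset.card_univ, Fintype.card_fin]
  unfold qq
  have h3 : (1 - 2 / (b:ℝ)) ^ N ≤ ((1 - 1 / (b:ℝ)) ^ N) ^ 2 := by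
    rw [← pow_mul, mul_comm N 2, pow_mul]
    apply pow_le_pow_left₀
    · rw [sub_nonneg, div_le_one hb']
      exact_mod_cast hb2
    · have : (1 - 1 / (b:ℝ)) ^ 2 = 1 - 2 / (b:ℝ) + (1 / (b:ℝ)) ^ 2 := by ring
      rw [this]
      nlinarith [sq_nonneg (1 / (b:ℝ))]
  nlinarith [h3]

theorem qq_nonneg {N b : ℕ} (hb : 0 < b) : 0 ≤ qq N b := by
  have hb' : (1:ℝ) ≤ b := by exact_mod_cast hb
  unfold qq
  rw [sub_nonneg]
  apply pow_le_one₀
  · rw [sub_nonneg, div_le_one (by linarith)]
    exact hb'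
  · have : 0 ≤ 1 / (b:ℝ) := by positivity
    linarith

theorem qq_le_one {N b : ℕ} (hb : 0 < b) : qq N b ≤ 1 := by
  have hb' : (1:ℝ) ≤ b := by exact_mod_cast hb
  unfold qq
  have : 0 ≤ (1 - 1 / (b:ℝ)) ^ N := by
    apply pow_nonneg
    rw [sub_nonneg, div_le_one (by linarith)]
    exact hb'
  linarith

/-- number of positions hit by each of the `m` groups of `N` children -/
noncomputable def ZZ {m N b : ℕ} (f : Fin m → Fin N → Fin b) : ℝ := ∑ s, ∏ g, hit (f g) s

theorem hit_sq {N b : ℕ} (u : Fin N → Fin b) (s : Fin b) : hit u s * hit u s = hit u s := by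
  classical
  unfold hit
  split_ifs <;> norm_num

theorem avg_ZZ {m N b : ℕ} (hb : 0 < b) :
    avg (fun f : Fin m → Fin N → Fin b => ZZ f) = b * qq N b ^ m := by
  unfold ZZ
  rw [avg_sum]
  have : ∀ s : Fin b, avg (fun f : Fin m → Fin N → Fin b => ∏ g, hit (f g) s) = qq N b ^ m := by
    intro s
    rw [avg_prod_pi (fun (_ : Fin m) (u : Fin N → Fin b) => hit u s), Finset.prod_const,
      avg_hit hb, Finset.card_univ, Fintype.card_fin]
  rw [Finset.sum_congr rfl (fun s _ => this s), Finset.sum_const, Finset.card_univ,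
    Fintype.card_fin, nsmul_eq_mul]

theorem avg_ZZ_sq {m N b : ℕ} (hb : 0 < b) :
    avg (fun f : Fin m → Fin N → Fin b => ZZ f ^ 2) ≤ b * qq N b ^ m + (b * qq N b ^ m) ^ 2 := by
  have hq := qq_nonneg (N := N) hb
  have h1 : (fun f : Fin m → Fin N → Fin b => ZZ f ^ 2)
      = fun f => ∑ s, ∑ t, ∏ g, (hit (f g) s * hit (f g) t) := by
    funext f
    unfold ZZ
    rw [sq, Finset.sum_mul_sum]
    simp only [Finset.prod_mul_distrib]
  rw [h1, avg_sum]
  have h2 : ∀ s : Fin b, avg (fun f : Fin m → Fin N → Fin b =>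
      ∑ t, ∏ g, (hit (f g) s * hit (f g) t)) ≤ qq N b ^ m + b * (qq N b ^ m) ^ 2 := by
    intro s
    rw [avg_sum]
    have h3 : ∀ t : Fin b, avg (fun f : Fin m → Fin N → Fin b =>
        ∏ g, (hit (f g) s * hit (f g) t)) ≤ (if t = s then qq N b ^ m else 0) + (qq N b ^ m) ^ 2 := by
      intro t
      rw [avg_prod_pi (fun (_ : Fin m) (u : Fin N → Fin b) => hit u s * hit u t),
        Finset.prod_const, Finset.card_univ, Fintype.card_fin]
      by_cases hst : t = s
      · subst hst
        simp only [hit_sq]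
        rw [avg_hit hb, if_pos trivial]
        nlinarith [sq_nonneg (qq N b ^ m)]
      · rw [if_neg hst, zero_add, ← pow_mul, mul_comm m 2, pow_mul]
        apply pow_le_pow_left₀ _ (avg_hit2 hb s t (Ne.symm hst))
        apply avg_nonneg
        intro u
        unfold hit
        split_ifs <;> norm_num
    refine (Finset.sum_le_sum fun t _ => h3 t).trans ?_
    rw [Finset.sum_add_distrib, Finset.sum_ite_eq' Finset.univ s, if_pos (Finset.mem_univ _),
      Finset.sum_const, Finset.card_univ, Fintype.card_fin, nsmul_eq_mul]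
  refine (Finset.sum_le_sum fun s _ => h2 s).trans ?_
  rw [Finset.sum_const, Finset.card_univ, Fintype.card_fin, nsmul_eq_mul]
  nlinarith

open Classical in
/-- Chebyshev -/
theorem cheb {m N b : ℕ} (hb : 0 < b) (hN : 0 < qq N b) :
    avg (fun f : Fin m → Fin N → Fin b => if ZZ f ≤ b * qq N b ^ m / 2 then (1:ℝ) else 0)
      ≤ 4 / (b * qq N b ^ m) := by
  have : Nonempty (Fin b) := ⟨⟨0, hb⟩⟩
  have hb' : (0:ℝ) < b := by exact_mod_cast hb
  set μ : ℝ := b * qq N b ^ m with hμ
  have hμ0 : 0 < μ := by positivity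
  have h1 : ∀ f : Fin m → Fin N → Fin b, (if ZZ f ≤ μ / 2 then (1:ℝ) else 0)
      ≤ 4 / μ ^ 2 * (ZZ f ^ 2 - 2 * μ * ZZ f + μ ^ 2) := by
    intro f
    have h2 : ZZ f ^ 2 - 2 * μ * ZZ f + μ ^ 2 = (μ - ZZ f) ^ 2 := by ring
    rw [h2]
    split_ifs with h
    · have h3 : μ / 2 ≤ μ - ZZ f := by linarith
      have h4 : (μ / 2) ^ 2 ≤ (μ - ZZ f) ^ 2 := pow_le_pow_left₀ (by positivity) h3 2
      rw [div_mul_eq_mul_div, le_div_iff₀ (by positivity)]
      nlinarith
    · positivity
  refine (avg_mono h1).trans ?_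
  rw [avg_mul_left, avg_add, avg_sub, avg_const, avg_mul_left, avg_ZZ hb, ← hμ]
  have h5 := avg_ZZ_sq (m := m) (N := N) hb
  rw [← hμ] at h5
  calc 4 / μ ^ 2 * (avg (fun f : Fin m → Fin N → Fin b => ZZ f ^ 2) - 2 * μ * μ + μ ^ 2)
      ≤ 4 / μ ^ 2 * μ := by
        apply mul_le_mul_of_nonneg_left _ (by positivity)
        nlinarith
    _ = 4 / μ := by field_simp

end Pool.Agent.TH967.OSI
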