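import Mathlib
import Pool.Agent.TH967.OSI.Block

open scoped BigOperators

namespace Pool.Agent.TH967.OSI

/-- index type of the rows that are used: `N` candidate roots, and for every block `j` and
every `g < m` a group of `N` candidate children -/
abbrev Row (ζ m N : ℕ) := Fin N ⊕ (Fin ζ × Fin m × Fin N)

/-- some root is such that, in each block, its position is hit by each of the `m` groups -/
def Good {ζ m N b : ℕ} (P : Row ζ m N → Fin ζ → Fin b) : Prop :=
  ∃ a : Fin N, ∀ j : Fin ζ, ∀ g : Fin m, ∃ i : Fin N, P (Sum.inr (j, g, i)) j = P (Sum.inl a) j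

/-- positions in block `j` of the children of block `j` -/
def fj {ζ m N b : ℕ} (c : Fin ζ × Fin m × Fin N → Fin ζ → Fin b) (j : Fin ζ) :
    Fin m → Fin N → Fin b := fun g i => c (j, g, i) j

open Classical in
theorem ind_not_good {ζ m N b : ℕ} (c : Fin ζ × Fin m × Fin N → Fin ζ → Fin b)
    (ρ : Fin N → Fin ζ → Fin b) :
    (if Good (Sum.elim ρ c) then (0:ℝ) else 1)
      = ∏ a, (1 - ∏ j, ∏ g, hit (fj c j g) (ρ a j)) := by
  have key : ∀ a, (∏ j, ∏ g, hit (fj c j g) (ρ a j))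
      = if (∀ j : Fin ζ, ∀ g : Fin m, ∃ i : Fin N, c (j, g, i) j = ρ a j) then 1 else 0 := by
    intro a
    by_cases h : ∀ j : Fin ζ, ∀ g : Fin m, ∃ i : Fin N, c (j, g, i) j = ρ a j
    · rw [if_pos h]
      refine Finset.prod_eq_one fun j _ => Finset.prod_eq_one fun g _ => ?_
      unfold hit fj
      rw [if_pos (h j g)]
    · rw [if_neg h]
      push Not at h
      obtain ⟨j, g, hjg⟩ := h
      refine Finset.prod_eq_zero (Finset.mem_univ j) ?_
      refine Finset.prod_eq_zero (Finset.mem_univ g) ?_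
      unfold hit fj
      rw [if_neg]
      push Not
      exact hjg
  by_cases h : Good (Sum.elim ρ c)
  · rw [if_pos h]
    obtain ⟨a, ha⟩ := h
    rw [eq_comm]
    refine Finset.prod_eq_zero (Finset.mem_univ a) ?_
    rw [key a, if_pos, sub_self]
    intro j g
    exact ha j g
  · rw [if_neg h, eq_comm]
    refine Finset.prod_eq_one fun a _ => ?_
    rw [key a, if_neg, sub_zero]
    intro h2
    exact h ⟨a, fun j g => h2 j g⟩

theorem avg_roots {ζ m N b : ℕ} (hb : 0 < b) (c : Fin ζ × Fin m × Fin N → Fin ζ → Fin b) :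
    avg (fun ρ : Fin N → Fin ζ → Fin b => ∏ a, (1 - ∏ j, ∏ g, hit (fj c j g) (ρ a j)))
      = (1 - ∏ j, (ZZ (fj c j) / b)) ^ N := by
  have : Nonempty (Fin b) := ⟨⟨0, hb⟩⟩
  rw [avg_prod_pi (fun (_ : Fin N) (x : Fin ζ → Fin b) => 1 - ∏ j, ∏ g, hit (fj c j g) (x j)),
    Finset.prod_const, Finset.card_univ, Fintype.card_fin, avg_sub, avg_const,
    avg_prod_pi (fun (j : Fin ζ) (s : Fin b) => ∏ g, hit (fj c j g) s)]
  congr 2
  refine Finset.prod_congr rfl fun j _ => ?_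
  unfold avg ZZ
  rw [Fintype.card_fin]

theorem hit_nonneg {N b : ℕ} (u : Fin N → Fin b) (s : Fin b) : 0 ≤ hit u s := by
  classical
  unfold hit
  split_ifs <;> norm_num

theorem hit_le_one {N b : ℕ} (u : Fin N → Fin b) (s : Fin b) : hit u s ≤ 1 := by
  classical
  unfold hit
  split_ifs <;> norm_num

theorem ZZ_nonneg {m N b : ℕ} (f : Fin m → Fin N → Fin b) : 0 ≤ ZZ f :=
  Finset.sum_nonneg fun s _ => Finset.prod_nonneg fun g _ => hit_nonneg _ _

theorem ZZ_le {m N b : ℕ} (f : Fin m → Fin N → Fin b) : ZZ f ≤ b := by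
  unfold ZZ
  calc ∑ s : Fin b, ∏ g, hit (f g) s ≤ ∑ s : Fin b, (1:ℝ) := by
        refine Finset.sum_le_sum fun s _ => Finset.prod_le_one (fun g _ => hit_nonneg _ _)
          (fun g _ => hit_le_one _ _)
    _ = b := by simp

open Classical in
theorem avg_roots_le {ζ m N b : ℕ} (hb : 0 < b) (c : Fin ζ × Fin m × Fin N → Fin ζ → Fin b) :
    (1 - ∏ j, (ZZ (fj c j) / b)) ^ N
      ≤ (1 - (qq N b ^ m / 2) ^ ζ) ^ N
        + ∑ j, (if ZZ (fj c j) ≤ b * qq N b ^ m / 2 then (1:ℝ) else 0) := by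
  have hb' : (0:ℝ) < b := by exact_mod_cast hb
  have hq := qq_nonneg (N := N) hb
  have hq1 := qq_le_one (N := N) hb
  have hp1 : 0 ≤ ∏ j, (ZZ (fj c j) / b) :=
    Finset.prod_nonneg fun j _ => div_nonneg (ZZ_nonneg _) hb'.le
  have hp2 : ∏ j, (ZZ (fj c j) / b) ≤ 1 := by
    refine Finset.prod_le_one (fun j _ => div_nonneg (ZZ_nonneg _) hb'.le) fun j _ => ?_
    rw [div_le_one hb']
    exact ZZ_le _
  have hqm : qq N b ^ m / 2 ≤ 1 := by
    have := pow_le_one₀ hq hq1 (n := m)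
    linarith
  have hqm0 : 0 ≤ qq N b ^ m / 2 := by positivity
  have hR : 0 ≤ (1 - (qq N b ^ m / 2) ^ ζ) ^ N := by
    apply pow_nonneg
    have := pow_le_one₀ hqm0 hqm (n := ζ)
    linarith
  by_cases h : ∃ j, ZZ (fj c j) ≤ b * qq N b ^ m / 2
  · obtain ⟨j, hj⟩ := h
    have h1 : (1:ℝ) ≤ ∑ j, (if ZZ (fj c j) ≤ b * qq N b ^ m / 2 then (1:ℝ) else 0) := by
      refine le_trans ?_ (Finset.single_le_sum (f := fun j =>
        (if ZZ (fj c j) ≤ b * qq N b ^ m / 2 then (1:ℝ) else 0))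
        (fun i _ => by split_ifs <;> norm_num) (Finset.mem_univ j))
      rw [if_pos hj]
    have h2 : (1 - ∏ j, (ZZ (fj c j) / b)) ^ N ≤ 1 :=
      pow_le_one₀ (by linarith) (by linarith)
    linarith
  · push Not at h
    have h1 : 0 ≤ ∑ j, (if ZZ (fj c j) ≤ b * qq N b ^ m / 2 then (1:ℝ) else 0) :=
      Finset.sum_nonneg fun i _ => by split_ifs <;> norm_num
    have h2 : (qq N b ^ m / 2) ^ ζ ≤ ∏ j, (ZZ (fj c j) / b) := by
      calc (qq N b ^ m / 2) ^ ζ = ∏ _j : Fin ζ, (qq N b ^ m / 2) := by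
            rw [Finset.prod_const, Finset.card_univ, Fintype.card_fin]
        _ ≤ _ := by
            refine Finset.prod_le_prod (fun _ _ => hqm0) fun j _ => ?_
            rw [le_div_iff₀ hb']
            have := h j
            nlinarith
    have h3 : (1 - ∏ j, (ZZ (fj c j) / b)) ^ N ≤ (1 - (qq N b ^ m / 2) ^ ζ) ^ N :=
      pow_le_pow_left₀ (by linarith) (by linarith) N
    linarith

theorem avg_marg {ζ m N b : ℕ} (hb : 0 < b) (j : Fin ζ) (F : (Fin m → Fin N → Fin b) → ℝ) :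
    avg (fun c : Fin ζ × Fin m × Fin N → Fin ζ → Fin b => F (fj c j)) = avg F := by
  have : Nonempty (Fin b) := ⟨⟨0, hb⟩⟩
  rw [← avg_equiv (Equiv.curry (Fin ζ × Fin m × Fin N) (Fin ζ) (Fin b))
      (fun c : Fin ζ × Fin m × Fin N → Fin ζ → Fin b => F (fj c j)),
    ← avg_equiv (Equiv.curry (Fin m) (Fin N) (Fin b)) F]
  have hφ : Function.Injective (fun p : Fin m × Fin N => (((j, p.1, p.2), j) :
      (Fin ζ × Fin m × Fin N) × Fin ζ)) := by
    intro p p' h
    simp only [Prod.mk.injEq, true_and, and_true] at h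
    exact Prod.ext h.1 h.2
  rw [← avg_comp_injective _ hφ (fun x => F ((Equiv.curry (Fin m) (Fin N) (Fin b)) x))]
  rfl

open Classical in
theorem not_good_le {ζ m N b : ℕ} (hb : 0 < b) (hN : 0 < qq N b) :
    avg (fun P : Row ζ m N → Fin ζ → Fin b => if Good P then (0:ℝ) else 1)
      ≤ (1 - (qq N b ^ m / 2) ^ ζ) ^ N + ζ * (4 / (b * qq N b ^ m)) := by
  have : Nonempty (Fin b) := ⟨⟨0, hb⟩⟩
  rw [← avg_equiv ((Equiv.sumArrowEquivProdArrow (Fin N) (Fin ζ × Fin m × Fin N)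
      (Fin ζ → Fin b)).trans (Equiv.prodComm _ _)).symm, avg_prod]
  have h1 : ∀ c : Fin ζ × Fin m × Fin N → Fin ζ → Fin b,
      avg (fun ρ : Fin N → Fin ζ → Fin b => (if Good (((Equiv.sumArrowEquivProdArrow (Fin N)
        (Fin ζ × Fin m × Fin N) (Fin ζ → Fin b)).trans (Equiv.prodComm _ _)).symm (c, ρ))
          then (0:ℝ) else 1)) = (1 - ∏ j, (ZZ (fj c j) / b)) ^ N := by
    intro c
    rw [← avg_roots hb c]
    congr 1
    funext ρ
    rw [← ind_not_good]
    rfl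
  simp only [h1]
  refine (avg_mono (avg_roots_le hb)).trans ?_
  rw [avg_add, avg_const, avg_sum]
  have h2 : ∀ j : Fin ζ, avg (fun c : Fin ζ × Fin m × Fin N → Fin ζ → Fin b =>
      if ZZ (fj c j) ≤ b * qq N b ^ m / 2 then (1:ℝ) else 0) ≤ 4 / (b * qq N b ^ m) := by
    intro j
    rw [avg_marg hb j (fun f : Fin m → Fin N → Fin b =>
      if ZZ f ≤ b * qq N b ^ m / 2 then (1:ℝ) else 0)]
    exact cheb hb hN
  refine add_le_add le_rfl ((Finset.sum_le_sum fun j _ => h2 j).trans ?_)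
  rw [Finset.sum_const, Finset.card_univ, Fintype.card_fin, nsmul_eq_mul]

end Pool.Agent.TH967.OSI
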