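import Mathlib
import Pool.Agent.TH967.OSI.Good
import Pool.Agent.TH967.OSI.Defs

open scoped BigOperators

namespace Pool.Agent.TH967.OSI

theorem sgn_mul_self (s : Bool) : sgn s * sgn s = 1 := by
  cases s <;> simp [sgn]

theorem sgn_not (s : Bool) : sgn (!s) = - sgn s := by
  cases s <;> simp [sgn]

/-- flip the sign at the coordinate `(i0, j0)` -/
def flipAt {I J : Type*} [DecidableEq I] [DecidableEq J] (i0 : I) (j0 : J) (σ : I → J → Bool) :
    I → J → Bool := fun i j => if i = i0 ∧ j = j0 then !(σ i j) else σ i j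

theorem flipAt_invol {I J : Type*} [DecidableEq I] [DecidableEq J] (i0 : I) (j0 : J) :
    Function.Involutive (flipAt i0 j0) := by
  intro σ
  funext i j
  unfold flipAt
  split_ifs <;> simp

theorem flipAt_ne {I J : Type*} [DecidableEq I] [DecidableEq J] (i0 : I) (j0 : J)
    (σ : I → J → Bool) (i : I) (j : J) (h : ¬ (i = i0 ∧ j = j0)) : flipAt i0 j0 σ i j = σ i j := by
  unfold flipAt
  rw [if_neg h]

theorem flipAt_eq {I J : Type*} [DecidableEq I] [DecidableEq J] (i0 : I) (j0 : J)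
    (σ : I → J → Bool) : flipAt i0 j0 σ i0 j0 = !(σ i0 j0) := by
  unfold flipAt
  rw [if_pos ⟨rfl, rfl⟩]

theorem avg_odd {T : Type*} [Fintype T] (e : T → T) (he : Function.Involutive e) (F : T → ℝ)
    (h : ∀ x, F (e x) = - F x) : avg F = 0 := by
  have h1 := avg_equiv (Function.Involutive.toPerm e he) F
  have h2 : (fun x => F (Function.Involutive.toPerm e he x)) = fun x => (-1) * F x := by
    funext x
    rw [show Function.Involutive.toPerm e he x = e x from rfl, h]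
    ring
  rw [h2, avg_mul_left] at h1
  linarith

/-- coordinates of the sketch of `y` -/
noncomputable def skR {I : Type*} [Fintype I] {ζ b : ℕ} (P : I → Fin ζ → Fin b)
    (σ : I → Fin ζ → Bool) (y : I → ℝ) (q : Fin ζ × Fin b) : ℝ :=
  ∑ i, (if P i q.1 = q.2 then sgn (σ i q.1) / Real.sqrt ζ else 0) * y i

section
variable {ζ m N b : ℕ}

/-- the test vector -/
noncomputable def yv (a : Fin N) (c : Fin ζ → Fin m → Fin N) (σ : Row ζ m N → Fin ζ → Bool) :
    Row ζ m N → ℝ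
  | Sum.inl a' => if a' = a then 1 else 0
  | Sum.inr (j, g, i) => if i = c j g then
      -(1 / (m:ℝ)) * sgn (σ (Sum.inl a) j) * sgn (σ (Sum.inr (j, g, i)) j) else 0

/-- products of three signs -/
noncomputable def TT (a : Fin N) (c : Fin ζ → Fin m → Fin N) (j' : Fin ζ) (x : Fin ζ × Fin m)
    (σ : Row ζ m N → Fin ζ → Bool) : ℝ :=
  sgn (σ (Sum.inl a) x.1) * sgn (σ (Sum.inr (x.1, x.2, c x.1 x.2)) x.1)
    * sgn (σ (Sum.inr (x.1, x.2, c x.1 x.2)) j')

theorem TT_sq (a : Fin N) (c : Fin ζ → Fin m → Fin N) (j' : Fin ζ) (x : Fin ζ × Fin m)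
    (σ : Row ζ m N → Fin ζ → Bool) : TT a c j' x σ * TT a c j' x σ = 1 := by
  unfold TT
  have h1 := sgn_mul_self (σ (Sum.inl a) x.1)
  have h2 := sgn_mul_self (σ (Sum.inr (x.1, x.2, c x.1 x.2)) x.1)
  have h3 := sgn_mul_self (σ (Sum.inr (x.1, x.2, c x.1 x.2)) j')
  calc _ = (sgn (σ (Sum.inl a) x.1) * sgn (σ (Sum.inl a) x.1))
      * (sgn (σ (Sum.inr (x.1, x.2, c x.1 x.2)) x.1) * sgn (σ (Sum.inr (x.1, x.2, c x.1 x.2)) x.1))
      * (sgn (σ (Sum.inr (x.1, x.2, c x.1 x.2)) j')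
        * sgn (σ (Sum.inr (x.1, x.2, c x.1 x.2)) j')) := by ring
    _ = 1 := by rw [h1, h2, h3]; norm_num

theorem avg_TT (a : Fin N) (c : Fin ζ → Fin m → Fin N) (j' : Fin ζ) (x y : Fin ζ × Fin m)
    (hxy : x ≠ y) (hx : x.1 ≠ j') :
    avg (fun σ : Row ζ m N → Fin ζ → Bool => TT a c j' x σ * TT a c j' y σ) = 0 := by
  classical
  refine avg_odd (flipAt (Sum.inr (x.1, x.2, c x.1 x.2)) j') (flipAt_invol _ _) _ ?_
  intro σ
  have h1 : TT a c j' x (flipAt (Sum.inr (x.1, x.2, c x.1 x.2)) j' σ) = - TT a c j' x σ := by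
    unfold TT
    rw [flipAt_ne _ _ _ _ _ (by simp), flipAt_ne _ _ _ _ _ (by simp [hx]), flipAt_eq, sgn_not]
    ring
  have h2 : TT a c j' y (flipAt (Sum.inr (x.1, x.2, c x.1 x.2)) j' σ) = TT a c j' y σ := by
    have hne : ¬ ((Sum.inr (y.1, y.2, c y.1 y.2) : Row ζ m N) = Sum.inr (x.1, x.2, c x.1 x.2)) := by
      intro h
      simp only [Sum.inr.injEq, Prod.mk.injEq] at h
      exact hxy (Prod.ext h.1.symm h.2.1.symm)
    unfold TT
    rw [flipAt_ne _ _ _ _ _ (by simp), flipAt_ne _ _ _ _ _ (fun h => hne h.1),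
      flipAt_ne _ _ _ _ _ (fun h => hne h.1)]
  rw [h1, h2]
  ring

theorem skR_yv (hm : 0 < m) (P : Row ζ m N → Fin ζ → Fin b) (a : Fin N)
    (c : Fin ζ → Fin m → Fin N)
    (hc : ∀ j g, P (Sum.inr (j, g, c j g)) j = P (Sum.inl a) j)
    (σ : Row ζ m N → Fin ζ → Bool) (q : Fin ζ × Fin b) :
    skR P σ (yv a c σ) q = -(1 / ((m:ℝ) * Real.sqrt ζ)) *
      ∑ x ∈ Finset.univ.filter (fun x : Fin ζ × Fin m => x.1 ≠ q.1),
        (if P (Sum.inr (x.1, x.2, c x.1 x.2)) q.1 = q.2 then (1:ℝ) else 0) * TT a c q.1 x σ := by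
  classical
  obtain ⟨j', p⟩ := q
  have hm' : (m:ℝ) ≠ 0 := by positivity
  unfold skR
  rw [Fintype.sum_sum_type]
  -- the root part
  have h1 : ∑ a' : Fin N, (if P (Sum.inl a') j' = p then sgn (σ (Sum.inl a') j') / Real.sqrt ζ
      else 0) * yv a c σ (Sum.inl a') = if P (Sum.inl a) j' = p then
        sgn (σ (Sum.inl a) j') / Real.sqrt ζ else 0 := by
    rw [Finset.sum_eq_single a]
    · simp [yv]
    · intro a' _ h
      simp [yv, h]
    · intro h
      exact absurd (Finset.mem_univ a) h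
  -- the children part
  have h2 : ∑ z : Fin ζ × Fin m × Fin N, (if P (Sum.inr z) j' = p then
      sgn (σ (Sum.inr z) j') / Real.sqrt ζ else 0) * yv a c σ (Sum.inr z)
      = ∑ x : Fin ζ × Fin m, (if P (Sum.inr (x.1, x.2, c x.1 x.2)) j' = p then
        sgn (σ (Sum.inr (x.1, x.2, c x.1 x.2)) j') / Real.sqrt ζ else 0) *
        (-(1 / (m:ℝ)) * sgn (σ (Sum.inl a) x.1)
          * sgn (σ (Sum.inr (x.1, x.2, c x.1 x.2)) x.1)) := by
    rw [Fintype.sum_prod_type, Fintype.sum_prod_type]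
    refine Finset.sum_congr rfl fun j _ => ?_
    rw [Fintype.sum_prod_type]
    refine Finset.sum_congr rfl fun g _ => ?_
    rw [Finset.sum_eq_single (c j g)]
    · simp [yv]
    · intro i _ h
      simp [yv, h]
    · intro h
      exact absurd (Finset.mem_univ _) h
  simp only at h1 h2 ⊢
  rw [h1, h2]
  -- split
  rw [← Finset.sum_filter_add_sum_filter_not Finset.univ (fun x : Fin ζ × Fin m => x.1 ≠ j')]
  have h3 : ∑ x ∈ Finset.univ.filter (fun x : Fin ζ × Fin m => ¬ x.1 ≠ j'),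
      (if P (Sum.inr (x.1, x.2, c x.1 x.2)) j' = p then
        sgn (σ (Sum.inr (x.1, x.2, c x.1 x.2)) j') / Real.sqrt ζ else 0) *
        (-(1 / (m:ℝ)) * sgn (σ (Sum.inl a) x.1)
          * sgn (σ (Sum.inr (x.1, x.2, c x.1 x.2)) x.1))
      = - (if P (Sum.inl a) j' = p then sgn (σ (Sum.inl a) j') / Real.sqrt ζ else 0) := by
    have h4 : ∀ x ∈ Finset.univ.filter (fun x : Fin ζ × Fin m => ¬ x.1 ≠ j'),
        (if P (Sum.inr (x.1, x.2, c x.1 x.2)) j' = p then
        sgn (σ (Sum.inr (x.1, x.2, c x.1 x.2)) j') / Real.sqrt ζ else 0) *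
        (-(1 / (m:ℝ)) * sgn (σ (Sum.inl a) x.1)
          * sgn (σ (Sum.inr (x.1, x.2, c x.1 x.2)) x.1))
        = - (1 / (m:ℝ)) * (if P (Sum.inl a) j' = p then
            sgn (σ (Sum.inl a) j') / Real.sqrt ζ else 0) := by
      intro x hx
      rw [Finset.mem_filter, not_not] at hx
      obtain ⟨_, hx⟩ := hx
      subst hx
      rw [hc]
      split_ifs
      · have := sgn_mul_self (σ (Sum.inr (x.1, x.2, c x.1 x.2)) x.1)
        calc _ = -(1 / (m:ℝ)) * (sgn (σ (Sum.inl a) x.1) / Real.sqrt ζ) *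
            (sgn (σ (Sum.inr (x.1, x.2, c x.1 x.2)) x.1)
              * sgn (σ (Sum.inr (x.1, x.2, c x.1 x.2)) x.1)) := by ring
          _ = _ := by rw [this, mul_one]
      · ring
    rw [Finset.sum_congr rfl h4, Finset.sum_const]
    have h5 : (Finset.univ.filter (fun x : Fin ζ × Fin m => ¬ x.1 ≠ j')).card = m := by
      have : Finset.univ.filter (fun x : Fin ζ × Fin m => ¬ x.1 ≠ j')
          = ({j'} : Finset (Fin ζ)) ×ˢ (Finset.univ : Finset (Fin m)) := by
        ext x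
        simp only [ne_eq, not_not, Finset.mem_filter, Finset.mem_univ, true_and,
          Finset.mem_product, Finset.mem_singleton, and_true]
      rw [this, Finset.card_product]
      simp
    rw [h5, nsmul_eq_mul]
    field_simp
  rw [h3]
  rw [Finset.mul_sum]
  rw [add_comm, add_assoc, neg_add_cancel, add_zero]
  refine Finset.sum_congr rfl fun x _ => ?_
  unfold TT
  split_ifs
  · by_cases hz : Real.sqrt ζ = 0
    · rw [hz]; simp
    · field_simp
  · ring

/-- second moment of one coordinate of the sketch -/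
theorem avg_sk_sq (hm : 0 < m) (P : Row ζ m N → Fin ζ → Fin b) (a : Fin N)
    (c : Fin ζ → Fin m → Fin N)
    (hc : ∀ j g, P (Sum.inr (j, g, c j g)) j = P (Sum.inl a) j) (q : Fin ζ × Fin b) :
    avg (fun σ : Row ζ m N → Fin ζ → Bool => skR P σ (yv a c σ) q ^ 2)
      = (1 / ((m:ℝ) * Real.sqrt ζ)) ^ 2 *
        ∑ x ∈ Finset.univ.filter (fun x : Fin ζ × Fin m => x.1 ≠ q.1),
          (if P (Sum.inr (x.1, x.2, c x.1 x.2)) q.1 = q.2 then (1:ℝ) else 0) := by
  classical
  set A : Finset (Fin ζ × Fin m) := Finset.univ.filter (fun x : Fin ζ × Fin m => x.1 ≠ q.1) with hA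
  set w : Fin ζ × Fin m → ℝ := fun x =>
    (if P (Sum.inr (x.1, x.2, c x.1 x.2)) q.1 = q.2 then (1:ℝ) else 0) with hw
  have h1 : (fun σ : Row ζ m N → Fin ζ → Bool => skR P σ (yv a c σ) q ^ 2)
      = fun σ => (1 / ((m:ℝ) * Real.sqrt ζ)) ^ 2 *
        ∑ x ∈ A, ∑ y ∈ A, (w x * w y) * (TT a c q.1 x σ * TT a c q.1 y σ) := by
    funext σ
    rw [skR_yv hm P a c hc σ q, mul_pow, neg_sq, sq (∑ x ∈ _, _), Finset.sum_mul_sum]
    congr 1
    refine Finset.sum_congr rfl fun x _ => Finset.sum_congr rfl fun y _ => ?_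
    simp only [hw]
    ring
  rw [h1, avg_mul_left, avg_sum]
  congr 1
  refine Finset.sum_congr rfl fun x hx => ?_
  rw [avg_sum, Finset.sum_eq_single x]
  · rw [avg_mul_left]
    have : (fun σ : Row ζ m N → Fin ζ → Bool => TT a c q.1 x σ * TT a c q.1 x σ)
        = fun _ => (1:ℝ) := by
      funext σ
      exact TT_sq a c q.1 x σ
    rw [this, avg_const, mul_one]
    simp only [hw]
    split_ifs <;> norm_num
  · intro y _ hy
    rw [avg_mul_left, avg_TT a c q.1 x y (Ne.symm hy), mul_zero]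
    rw [hA, Finset.mem_filter] at hx
    exact hx.2
  · intro h
    exact absurd hx h

theorem avg_sk_total (hm : 0 < m) (hζ : 0 < ζ) (P : Row ζ m N → Fin ζ → Fin b) (a : Fin N)
    (c : Fin ζ → Fin m → Fin N)
    (hc : ∀ j g, P (Sum.inr (j, g, c j g)) j = P (Sum.inl a) j) :
    avg (fun σ : Row ζ m N → Fin ζ → Bool => ∑ q, skR P σ (yv a c σ) q ^ 2)
      = ((ζ:ℝ) - 1) / m := by
  classical
  rw [avg_sum]
  simp only [avg_sk_sq hm P a c hc]
  rw [← Finset.mul_sum, Fintype.sum_prod_type]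
  have h1 : ∀ j' : Fin ζ, ∑ p : Fin b, ∑ x ∈ Finset.univ.filter
      (fun x : Fin ζ × Fin m => x.1 ≠ j'),
        (if P (Sum.inr (x.1, x.2, c x.1 x.2)) j' = p then (1:ℝ) else 0)
      = ((ζ:ℝ) - 1) * m := by
    intro j'
    rw [Finset.sum_comm]
    have h2 : ∀ x : Fin ζ × Fin m, ∑ p : Fin b,
        (if P (Sum.inr (x.1, x.2, c x.1 x.2)) j' = p then (1:ℝ) else 0) = 1 := by
      intro x
      rw [Finset.sum_ite_eq]
      simp
    rw [Finset.sum_congr rfl (fun x _ => h2 x), Finset.sum_const, nsmul_eq_mul, mul_one]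
    have h3 : Finset.univ.filter (fun x : Fin ζ × Fin m => x.1 ≠ j')
        = (Finset.univ.erase j') ×ˢ (Finset.univ : Finset (Fin m)) := by
      ext x
      simp
    rw [h3, Finset.card_product, Finset.card_erase_of_mem (Finset.mem_univ _)]
    simp only [Finset.card_univ, Fintype.card_fin]
    rw [Nat.cast_mul, Nat.cast_sub (by omega)]
    simp
  simp only at h1 ⊢
  rw [Finset.sum_congr rfl (fun j' _ => h1 j'), Finset.sum_const, Finset.card_univ,
    Fintype.card_fin, nsmul_eq_mul, div_pow, mul_pow, Real.sq_sqrt (Nat.cast_nonneg _)]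
  have hm' : (m:ℝ) ≠ 0 := by positivity
  have hz' : (ζ:ℝ) ≠ 0 := by positivity
  field_simp

theorem yv_sq (a : Fin N) (c : Fin ζ → Fin m → Fin N)
    (σ : Row ζ m N → Fin ζ → Bool) : 1 ≤ ∑ i, yv a c σ i ^ 2 := by
  refine le_trans ?_ (Finset.single_le_sum (f := fun i => yv a c σ i ^ 2)
    (fun i _ => sq_nonneg _) (Finset.mem_univ (Sum.inl a)))
  simp [yv]

end

end Pool.Agent.TH967.OSI
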