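import Mathlib
import Pool.Agent.TH967.OSI.Signs

open scoped BigOperators

namespace Pool.Agent.TH967.OSI

/-- injectivity for vectors supported on the rows `I` -/
def InjR {I : Type*} [Fintype I] {ζ b : ℕ} (α : ℝ) (P : I → Fin ζ → Fin b)
    (σ : I → Fin ζ → Bool) : Prop :=
  ∀ y : I → ℝ, α * ∑ i, y i ^ 2 ≤ ∑ q, skR P σ y q ^ 2

open Classical in
theorem avg_inj_good {ζ m N b : ℕ} (hm : 0 < m) (hζ : 0 < ζ) {α : ℝ} (hα : 0 < α)
    (P : Row ζ m N → Fin ζ → Fin b) (hP : Good P) :
    avg (fun σ : Row ζ m N → Fin ζ → Bool => if InjR α P σ then (1:ℝ) else 0)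
      ≤ ((ζ:ℝ) - 1) / m / α := by
  obtain ⟨a, ha⟩ := hP
  choose c hc using ha
  have h1 : ∀ σ : Row ζ m N → Fin ζ → Bool, (if InjR α P σ then (1:ℝ) else 0)
      ≤ (1 / α) * ∑ q, skR P σ (yv a c σ) q ^ 2 := by
    intro σ
    have h0 : 0 ≤ ∑ q, skR P σ (yv a c σ) q ^ 2 := Finset.sum_nonneg fun q _ => sq_nonneg _
    split_ifs with h
    · have h2 := h (yv a c σ)
      have h3 := yv_sq a c σ
      rw [one_div, ← div_eq_inv_mul, le_div_iff₀ hα, one_mul]
      nlinarith
    · positivity
  refine (avg_mono h1).trans ?_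
  rw [avg_mul_left, avg_sk_total hm hζ P a c hc]
  apply le_of_eq
  field_simp

/-- split a sample into positions and signs -/
def splitEquiv (I : Type*) (ζ b : ℕ) :
    (I → Fin ζ → Bool × Fin b) ≃ (I → Fin ζ → Fin b) × (I → Fin ζ → Bool) where
  toFun ω := (fun i j => (ω i j).2, fun i j => (ω i j).1)
  invFun p := fun i j => (p.2 i j, p.1 i j)
  left_inv _ := rfl
  right_inv _ := rfl

open Classical in
theorem avg_inj {ζ m N b : ℕ} (hm : 0 < m) (hζ : 0 < ζ) (hb : 0 < b) (hN : 0 < qq N b)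
    {α : ℝ} (hα : 0 < α) :
    avg (fun ω : Row ζ m N → Fin ζ → Bool × Fin b =>
      if InjR α (splitEquiv _ ζ b ω).1 (splitEquiv _ ζ b ω).2 then (1:ℝ) else 0)
      ≤ (1 - (qq N b ^ m / 2) ^ ζ) ^ N + ζ * (4 / (b * qq N b ^ m)) + ((ζ:ℝ) - 1) / m / α := by
  have : Nonempty (Fin b) := ⟨⟨0, hb⟩⟩
  rw [avg_equiv (splitEquiv (Row ζ m N) ζ b) (fun p : (Row ζ m N → Fin ζ → Fin b) ×
    (Row ζ m N → Fin ζ → Bool) => if InjR α p.1 p.2 then (1:ℝ) else 0), avg_prod]
  have hz : 0 ≤ ((ζ:ℝ) - 1) / m / α := by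
    have : (1:ℝ) ≤ ζ := by exact_mod_cast hζ
    have h1 : 0 ≤ (ζ:ℝ) - 1 := by linarith
    positivity
  have h1 : ∀ P : Row ζ m N → Fin ζ → Fin b,
      avg (fun σ : Row ζ m N → Fin ζ → Bool => if InjR α P σ then (1:ℝ) else 0)
        ≤ (if Good P then (0:ℝ) else 1) + ((ζ:ℝ) - 1) / m / α := by
    intro P
    by_cases hP : Good P
    · rw [if_pos hP, zero_add]
      exact avg_inj_good hm hζ hα P hP
    · rw [if_neg hP]
      have : avg (fun σ : Row ζ m N → Fin ζ → Bool => if InjR α P σ then (1:ℝ) else 0)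
          ≤ avg (fun _ : Row ζ m N → Fin ζ → Bool => (1:ℝ)) :=
        avg_mono fun σ => by split_ifs <;> norm_num
      rw [avg_const] at this
      linarith
  refine (avg_mono h1).trans ?_
  rw [avg_add, avg_const]
  have := not_good_le (ζ := ζ) (m := m) hb hN
  linarith

/-- embedding of `ℝ^r` in `ℝ^n` as the first `r` coordinates -/
def emb (r n : ℕ) : (Fin r → ℝ) →ₗ[ℝ] EuclideanSpace ℝ (Fin n) where
  toFun z := WithLp.toLp 2 (fun i => if h : i.val < r then z ⟨i.val, h⟩ else 0)
  map_add' z w := by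
    ext i
    simp only [PiLp.add_apply, Pi.add_apply]
    split_ifs <;> simp
  map_smul' t z := by
    ext i
    simp only [PiLp.smul_apply, Pi.smul_apply, smul_eq_mul, RingHom.id_apply]
    split_ifs <;> simp

theorem emb_inj {r n : ℕ} (h : r ≤ n) : Function.Injective (emb r n) := by
  intro z w hzw
  funext i
  have h1 := congrArg (fun x : EuclideanSpace ℝ (Fin n) => x ⟨i.val, lt_of_lt_of_le i.2 h⟩) hzw
  simpa [emb, i.2] using h1

/-- the coordinate subspace -/
def coordSub (r n : ℕ) : Submodule ℝ (EuclideanSpace ℝ (Fin n)) := LinearMap.range (emb r n)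

theorem finrank_coordSub {r n : ℕ} (h : r ≤ n) : Module.finrank ℝ (coordSub r n) = r := by
  unfold coordSub
  rw [LinearMap.finrank_range_of_inj (emb_inj h)]
  simp

theorem sketch_apply {n ζ b : ℕ} (ω : Sample n ζ b) (x : EuclideanSpace ℝ (Fin n))
    (q : Fin ζ × Fin b) : sketch ω x q = ∑ i, stack ω i q * x i := by
  simp [sketch, Matrix.mulVec, dotProduct, Matrix.transpose_apply]

open Classical in
theorem prob_eq_avg {n ζ b : ℕ} (S : Set (Sample n ζ b)) :
    prob S = avg (fun ω => if ω ∈ S then (1:ℝ) else 0) := by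
  unfold prob avg
  rw [Nat.card_eq_fintype_card, Nat.card_eq_fintype_card]
  congr 1
  rw [Finset.sum_ite, Finset.sum_const_zero, add_zero, Finset.sum_const, nsmul_eq_mul, mul_one]
  congr 1
  rw [Fintype.card_subtype]

open Classical in
theorem prob_le {ζ m N b r n : ℕ} (hm : 0 < m) (hζ : 0 < ζ) (hb : 0 < b) (hN : 0 < qq N b)
    {α : ℝ} (hα : 0 < α) (hr : N + ζ * (m * N) ≤ r) (hrn : r ≤ n) :
    prob {ω : Sample n ζ b | ∀ x ∈ coordSub r n, α * ‖x‖ ^ 2 ≤ ‖sketch ω x‖ ^ 2}
      ≤ (1 - (qq N b ^ m / 2) ^ ζ) ^ N + ζ * (4 / (b * qq N b ^ m)) + ((ζ:ℝ) - 1) / m / α := by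
  have : Nonempty (Fin b) := ⟨⟨0, hb⟩⟩
  have hcard : Fintype.card (Row ζ m N) = N + ζ * (m * N) := by
    simp [Row]
  obtain ⟨ψ⟩ : Nonempty (Row ζ m N ↪ Fin r) := by
    apply Function.Embedding.nonempty_of_card_le
    rw [hcard, Fintype.card_fin]
    exact hr
  set φ : Row ζ m N → Fin n := fun i => Fin.castLE hrn (ψ i) with hφ
  have hφi : Function.Injective φ := fun i j h => ψ.injective (Fin.castLE_injective hrn h)
  rw [prob_eq_avg]
  refine le_trans (avg_mono (g := fun ω : Sample n ζ b =>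
    (fun ω' : Row ζ m N → Fin ζ → Bool × Fin b =>
      if InjR α (splitEquiv _ ζ b ω').1 (splitEquiv _ ζ b ω').2 then (1:ℝ) else 0)
      (fun i => ω (φ i))) ?_) ?_
  · intro ω
    by_cases h : ω ∈ {ω : Sample n ζ b | ∀ x ∈ coordSub r n, α * ‖x‖ ^ 2 ≤ ‖sketch ω x‖ ^ 2}
    · rw [if_pos h]
      have h2 : InjR α (splitEquiv _ ζ b (fun i => ω (φ i))).1
          (splitEquiv _ ζ b (fun i => ω (φ i))).2 := by
        intro y
        set x : EuclideanSpace ℝ (Fin n) := WithLp.toLp 2 (Function.extend φ y 0) with hx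
        have hxi : ∀ i, x i = Function.extend φ y 0 i := fun i => rfl
        have hout : ∀ i, i ∉ Set.range φ → x i = 0 := by
          intro i hi
          rw [hxi, Function.extend_apply' _ _ _ (by simpa using hi)]
          rfl
        have hmem : x ∈ coordSub r n := by
          refine ⟨fun i => x (Fin.castLE hrn i), ?_⟩
          ext i
          show (if h : i.val < r then x (Fin.castLE hrn ⟨i.val, h⟩) else 0) = x i
          split_ifs with h3
          · rfl
          · rw [hout]
            rintro ⟨j, hj⟩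
            apply h3
            rw [← hj]
            exact (ψ j).2
        have h3 := h x hmem
        rw [EuclideanSpace.real_norm_sq_eq, EuclideanSpace.real_norm_sq_eq] at h3
        have h4 : ∑ i, x i ^ 2 = ∑ i, y i ^ 2 := by
          rw [eq_comm]
          refine Fintype.sum_of_injective φ hφi _ _ ?_ ?_
          · intro i hi
            rw [hout i hi]; norm_num
          · intro i
            rw [hxi, hφi.extend_apply]
        have h5 : ∀ q, sketch ω x q = skR (splitEquiv _ ζ b (fun i => ω (φ i))).1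
          (splitEquiv _ ζ b (fun i => ω (φ i))).2 y q := by
          intro q
          rw [sketch_apply]
          unfold skR
          rw [eq_comm]
          refine Fintype.sum_of_injective φ hφi _ _ ?_ ?_
          · intro i hi
            rw [hout i hi, mul_zero]
          · intro i
            rw [hxi, hφi.extend_apply]
            rfl
        have h6 : ∑ q, sketch ω x q ^ 2 = ∑ q, skR (splitEquiv _ ζ b (fun i => ω (φ i))).1
          (splitEquiv _ ζ b (fun i => ω (φ i))).2 y q ^ 2 :=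
          Finset.sum_congr rfl fun q _ => by rw [h5 q]
        rw [h4, h6] at h3
        exact h3
      simp only
      rw [if_pos h2]
    · rw [if_neg h]
      simp only
      split_ifs <;> norm_num
  · exact (avg_comp_injective (X := Fin ζ → Bool × Fin b) φ hφi
      (fun ω' : Row ζ m N → Fin ζ → Bool × Fin b =>
      if InjR α (splitEquiv _ ζ b ω').1 (splitEquiv _ ζ b ω').2 then (1:ℝ) else 0)).trans_le
      (avg_inj hm hζ hb hN hα)

end Pool.Agent.TH967.OSI
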