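import Mathlib
import Pool.Agent.TH967.OSI.Main

open scoped BigOperators

namespace Pool.Agent.TH967.OSI

theorem qq_lower {N b : ℕ} (hb : 0 < b) {κ : ℝ} (hκ : κ ≤ (N:ℝ) / b) :
    1 - Real.exp (-κ) ≤ qq N b := by
  have hb' : (1:ℝ) ≤ b := by exact_mod_cast hb
  unfold qq
  have h1 : (1 - 1 / (b:ℝ)) ^ N ≤ Real.exp (-κ) := by
    calc (1 - 1 / (b:ℝ)) ^ N ≤ (Real.exp (-(1 / (b:ℝ)))) ^ N := by
          apply pow_le_pow_left₀
          · rw [sub_nonneg, div_le_one (by linarith)]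
            exact hb'
          · have := Real.add_one_le_exp (-(1 / (b:ℝ)))
            linarith
      _ = Real.exp (-((N:ℝ) / b)) := by
          rw [← Real.exp_nat_mul]
          congr 1
          ring
      _ ≤ Real.exp (-κ) := Real.exp_le_exp.2 (by linarith)
  linarith

/-- the sketch as a linear map -/
noncomputable def sketchL {n ζ b : ℕ} (ω : Sample n ζ b) :
    EuclideanSpace ℝ (Fin n) →ₗ[ℝ] EuclideanSpace ℝ (Fin ζ × Fin b) where
  toFun := sketch ω
  map_add' x y := by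
    ext q
    rw [PiLp.add_apply, sketch_apply, sketch_apply, sketch_apply, ← Finset.sum_add_distrib]
    refine Finset.sum_congr rfl fun i _ => ?_
    rw [PiLp.add_apply]
    ring
  map_smul' t x := by
    ext q
    rw [RingHom.id_apply, PiLp.smul_apply, sketch_apply, sketch_apply, smul_eq_mul,
      Finset.mul_sum]
    refine Finset.sum_congr rfl fun i _ => ?_
    rw [PiLp.smul_apply, smul_eq_mul]
    ring

theorem prob_small_dim {n ζ b r : ℕ} (hrn : r ≤ n) (hk : b * ζ < r) {α : ℝ} (hα : 0 < α) :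
    prob {ω : Sample n ζ b | ∀ x ∈ coordSub r n, α * ‖x‖ ^ 2 ≤ ‖sketch ω x‖ ^ 2} = 0 := by
  have h1 : {ω : Sample n ζ b | ∀ x ∈ coordSub r n, α * ‖x‖ ^ 2 ≤ ‖sketch ω x‖ ^ 2} = ∅ := by
    rw [Set.eq_empty_iff_forall_notMem]
    intro ω hω
    have h2 : LinearMap.ker ((sketchL ω).domRestrict (coordSub r n)) ≠ ⊥ := by
      apply LinearMap.ker_ne_bot_of_finrank_lt
      rw [finrank_coordSub hrn, finrank_euclideanSpace, Fintype.card_prod, Fintype.card_fin,
        Fintype.card_fin, mul_comm]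
      exact hk
    obtain ⟨x, hx, hx0⟩ := Submodule.exists_mem_ne_zero_of_ne_bot h2
    have h3 : sketch ω (x : EuclideanSpace ℝ (Fin n)) = 0 := by
      have := LinearMap.mem_ker.1 hx
      exact this
    have h4 := hω x.1 x.2
    rw [h3, norm_zero] at h4
    have h5 : 0 < ‖(x : EuclideanSpace ℝ (Fin n))‖ := by
      rw [norm_pos_iff]
      intro h
      exact hx0 (Subtype.ext h)
    have : 0 < α * ‖(x : EuclideanSpace ℝ (Fin n))‖ ^ 2 := by positivity
    norm_num at h4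
    linarith
  rw [h1]
  unfold prob
  simp

theorem main_bound (C₁ C₂ α₀ η : ℝ) (hα : 0 < α₀) (hη : 0 < η) :
    ∃ r₀ : ℕ, ∀ r n : ℕ, r₀ ≤ r → r ≤ n → ∀ ζ b : ℕ, 1 ≤ ζ → 1 ≤ b → (ζ:ℝ) ≤ C₁ →
      ((b * ζ : ℕ) : ℝ) ≤ C₂ * r →
      prob {ω : Sample n ζ b | ∀ x ∈ coordSub r n, α₀ * ‖x‖ ^ 2 ≤ ‖sketch ω x‖ ^ 2} ≤ η := by
  set M : ℕ := ⌊C₁⌋₊ + 1 with hM
  set m : ℕ := ⌈2 * (M:ℝ) / (α₀ * η)⌉₊ + 1 with hm
  set D : ℕ := 1 + M * m with hD
  set C : ℝ := max C₂ 1 with hC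
  have hC1 : 1 ≤ C := le_max_right _ _
  have hDpos : (0:ℝ) < D := by
    have : 0 < D := by omega
    exact_mod_cast this
  set κ : ℝ := 1 / (2 * D * C) with hκ
  have hκ0 : 0 < κ := by positivity
  set q0 : ℝ := 1 - Real.exp (-κ) with hq0
  have hq0pos : 0 < q0 := by
    have : Real.exp (-κ) < 1 := by
      rw [Real.exp_lt_one_iff]; linarith
    linarith
  have hq0le : q0 ≤ 1 := by
    have := Real.exp_pos (-κ)
    linarith
  have hq0m : 0 < q0 ^ m := by positivity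
  have hq0m1 : q0 ^ m / 2 ≤ 1 := by
    have := pow_le_one₀ hq0pos.le hq0le (n := m)
    linarith
  set h : ℝ := (q0 ^ m / 2) ^ M with hh
  have hh0 : 0 < h := by positivity
  have hh1 : h ≤ 1 := pow_le_one₀ (by positivity) hq0m1
  obtain ⟨N0, hN0⟩ := exists_pow_lt_of_lt_one (show 0 < η / 4 by positivity)
    (show 1 - h < 1 by linarith)
  refine ⟨max (D * (N0 + 1)) (⌈16 * (M:ℝ) ^ 2 / (η * q0 ^ m)⌉₊ + 1), ?_⟩
  intro r n hr hrn ζ b hζ hb hζC hbC
  have hr1 : D * (N0 + 1) ≤ r := le_trans (le_max_left _ _) hr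
  have hr2 : ⌈16 * (M:ℝ) ^ 2 / (η * q0 ^ m)⌉₊ + 1 ≤ r := le_trans (le_max_right _ _) hr
  rcases lt_or_ge (b * ζ) r with hcase | hcase
  · rw [prob_small_dim hrn hcase hα]
    exact hη.le
  have hζM : ζ ≤ M := by
    have : ζ ≤ ⌊C₁⌋₊ := Nat.le_floor hζC
    omega
  set N : ℕ := r / D with hN
  have hDpos' : 0 < D := by omega
  have hNN0 : N0 + 1 ≤ N := by
    rw [hN, Nat.le_div_iff_mul_le hDpos', mul_comm]
    exact hr1
  have hND : N * D ≤ r := Nat.div_mul_le_self r D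
  have hrND : r < (N + 1) * D := by
    have := Nat.lt_div_mul_add hDpos' (a := r)
    rw [← hN] at this
    linarith
  have hrpos : (0:ℝ) < r := by
    have : 0 < r := by omega
    exact_mod_cast this
  have hbpos : (0:ℝ) < b := by exact_mod_cast hb
  have hm0 : 0 < m := by omega
  -- lower bound on N / b
  have hNb : κ ≤ (N:ℝ) / b := by
    have h1 : (r:ℝ) ≤ 2 * N * D := by
      have h2 : r ≤ 2 * N * D := by
        have : (N + 1) * D ≤ 2 * N * D := by
          apply Nat.mul_le_mul_right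
          omega
        omega
      exact_mod_cast h2
    have h3 : (b:ℝ) ≤ C * r := by
      have h4 : (b:ℝ) ≤ ((b * ζ : ℕ) : ℝ) := by
        exact_mod_cast Nat.le_mul_of_pos_right b (by omega)
      have h5 : C₂ * r ≤ C * r := mul_le_mul_of_nonneg_right (le_max_left _ _) hrpos.le
      linarith
    rw [hκ, le_div_iff₀ hbpos, div_mul_eq_mul_div, one_mul, div_le_iff₀ (by positivity)]
    calc (b:ℝ) ≤ C * r := h3
      _ ≤ C * (2 * N * D) := by
          apply mul_le_mul_of_nonneg_left h1 (by linarith)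
      _ = N * (2 * D * C) := by ring
  have hq : q0 ≤ qq N b := qq_lower (by omega) hNb
  have hqpos : 0 < qq N b := by linarith
  have hq1 : qq N b ≤ 1 := qq_le_one (by omega)
  have hcardle : N + ζ * (m * N) ≤ r := by
    have : ζ * (m * N) ≤ M * (m * N) := Nat.mul_le_mul_right _ hζM
    have h2 : N * D = N + M * (m * N) := by rw [hD]; ring
    omega
  refine (prob_le (r := r) (n := n) hm0 (by omega) (by omega) hqpos hα hcardle hrn).trans ?_
  -- first term
  have t1 : (1 - (qq N b ^ m / 2) ^ ζ) ^ N ≤ η / 4 := by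
    have h1 : h ≤ (qq N b ^ m / 2) ^ ζ := by
      calc h = (q0 ^ m / 2) ^ M := rfl
        _ ≤ (q0 ^ m / 2) ^ ζ := pow_le_pow_of_le_one (by positivity) hq0m1 hζM
        _ ≤ (qq N b ^ m / 2) ^ ζ := by
            apply pow_le_pow_left₀ (by positivity)
            have := pow_le_pow_left₀ hq0pos.le hq m
            linarith
    have h2 : (qq N b ^ m / 2) ^ ζ ≤ 1 := by
      apply pow_le_one₀ (by positivity)
      have := pow_le_one₀ hqpos.le hq1 (n := m)
      linarith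
    calc (1 - (qq N b ^ m / 2) ^ ζ) ^ N ≤ (1 - h) ^ N :=
          pow_le_pow_left₀ (by linarith) (by linarith) N
      _ ≤ (1 - h) ^ N0 := pow_le_pow_of_le_one (by linarith) (by linarith) (by omega)
      _ ≤ η / 4 := hN0.le
  have t2 : (ζ:ℝ) * (4 / (b * qq N b ^ m)) ≤ η / 4 := by
    have h1 : (r:ℝ) ≤ b * M := by
      have : r ≤ b * M := le_trans hcase (Nat.mul_le_mul_left b hζM)
      exact_mod_cast this
    have h2 : 16 * (M:ℝ) ^ 2 / (η * q0 ^ m) ≤ r := by
      have h3 := Nat.le_ceil (16 * (M:ℝ) ^ 2 / (η * q0 ^ m))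
      have h4 : ((⌈16 * (M:ℝ) ^ 2 / (η * q0 ^ m)⌉₊ : ℕ) : ℝ) ≤ r := by
        have : ⌈16 * (M:ℝ) ^ 2 / (η * q0 ^ m)⌉₊ ≤ r := by omega
        exact_mod_cast this
      linarith
    rw [div_le_iff₀ (by positivity)] at h2
    have hζM' : (ζ:ℝ) ≤ M := by exact_mod_cast hζM
    have hMpos : (0:ℝ) < M := by
      have : 0 < M := by omega
      exact_mod_cast this
    have hqm : q0 ^ m ≤ qq N b ^ m := pow_le_pow_left₀ hq0pos.le hq m
    have hqmp : 0 < qq N b ^ m := by positivity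
    rw [← mul_div_assoc, div_le_iff₀ (by positivity)]
    -- ζ * 4 ≤ η / 4 * (b * q ^ m)
    have h5 : 16 * (M:ℝ) ^ 2 ≤ b * M * (η * q0 ^ m) :=
      h2.trans (mul_le_mul_of_nonneg_right h1 (by positivity))
    have h6 : 16 * (M:ℝ) ≤ b * (η * q0 ^ m) := by
      have : 16 * (M:ℝ) * M ≤ b * (η * q0 ^ m) * M := by nlinarith
      exact le_of_mul_le_mul_right this hMpos
    have h7 : b * (η * q0 ^ m) ≤ b * (η * qq N b ^ m) := by
      apply mul_le_mul_of_nonneg_left _ hbpos.le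
      apply mul_le_mul_of_nonneg_left hqm hη.le
    have h8 : η / 4 * (b * qq N b ^ m) = (b * (η * qq N b ^ m)) / 4 := by ring
    rw [h8]
    linarith
  have t3 : ((ζ:ℝ) - 1) / m / α₀ ≤ η / 2 := by
    have hζM' : (ζ:ℝ) ≤ M := by exact_mod_cast hζM
    have hmR : 2 * (M:ℝ) / (α₀ * η) ≤ m := by
      have h3 := Nat.le_ceil (2 * (M:ℝ) / (α₀ * η))
      have h4 : ((⌈2 * (M:ℝ) / (α₀ * η)⌉₊ : ℕ) : ℝ) ≤ m := by
        have : ⌈2 * (M:ℝ) / (α₀ * η)⌉₊ ≤ m := by omega
        exact_mod_cast this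
      linarith
    rw [div_le_iff₀ (by positivity)] at hmR
    have hmpos : (0:ℝ) < m := by exact_mod_cast hm0
    rw [div_div, div_le_iff₀ (by positivity)]
    nlinarith
  linarith

end Pool.Agent.TH967.OSI
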